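import Pool.Agent.Helper71.AG2.Goals

/-!
# AG+-SOL: groups in the class are solvable
-/

set_option autoImplicit false

namespace Pool.Agent.Helper43.AG2

open Pool.Agent.Helper71.AG2

universe u

theorem sol_sup {G : Type u} [Group G] (K : Subgroup G) [K.Normal] (hK : Group.IsSolvable K)
    (g : G) : Group.IsSolvable (K ⊔ Subgroup.zpowers g : Subgroup G) := by
  set L : Subgroup G := K ⊔ Subgroup.zpowers g with hL
  have hKL : K ≤ L := le_sup_left
  let f : L →* G ⧸ K := (QuotientGroup.mk' K).comp L.subtype
  have hr : f.range ≤ Subgroup.zpowers (QuotientGroup.mk' K g) := by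
    have h1 : f.range = L.map (QuotientGroup.mk' K) := by
      rw [MonoidHom.range_comp, Subgroup.range_subtype]
    rw [h1, hL, Subgroup.map_sup, MonoidHom.map_zpowers]
    refine sup_le ?_ le_rfl
    rintro x ⟨y, hy, rfl⟩
    have : QuotientGroup.mk' K y = 1 := by
      rw [← MonoidHom.mem_ker, QuotientGroup.ker_mk']
      exact hy
    rw [this]
    exact one_mem _
  have hcomm : ∀ a b : f.range, a * b = b * a := by
    rintro ⟨a, ha⟩ ⟨b, hb⟩
    apply Subtype.ext
    obtain ⟨m, hm⟩ := Subgroup.mem_zpowers_iff.1 (hr ha)
    obtain ⟨n, hn⟩ := Subgroup.mem_zpowers_iff.1 (hr hb)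
    change a * b = b * a
    rw [← hm, ← hn, ← zpow_add, ← zpow_add, add_comm]
  haveI : Group.IsSolvable f.range := Group.isSolvable_of_comm hcomm
  haveI := hK
  refine Group.isSolvable_of_ker_le_range (Subgroup.inclusion hKL) f.rangeRestrict ?_
  intro x hx
  rw [MonoidHom.mem_ker] at hx
  have hx' : f x = 1 := congrArg Subtype.val hx
  have hxK : (x : G) ∈ K := by
    have : QuotientGroup.mk' K (x : G) = 1 := hx'
    rwa [← MonoidHom.mem_ker, QuotientGroup.ker_mk'] at this
  exact ⟨⟨x, hxK⟩, Subtype.ext rfl⟩

theorem sol_supersolvable (G : Type u) [Group G] (h : Helper46.KG.IsSupersolvable G) :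
    Group.IsSolvable G := by
  obtain ⟨n, H, h0, hn, hN, hg⟩ := h
  have key : ∀ i, i ≤ n → Group.IsSolvable (H i) := by
    intro i
    induction i with
    | zero =>
      intro _
      rw [h0]
      exact Group.isSolvable_of_comm (fun a b => Subsingleton.elim _ _)
    | succ i ih =>
      intro hi
      obtain ⟨g, hg'⟩ := hg i (by omega)
      haveI := hN i
      rw [hg']
      exact sol_sup (H i) (ih (by omega)) g
  have := key n le_rfl
  rw [hn] at this
  haveI := this
  exact Group.isSolvable_of_surjective (f := (Subgroup.topEquiv (G := G)).toMonoidHom)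
    (Subgroup.topEquiv (G := G)).surjective

theorem sol_metabelian (G : Type u) [Group G]
    (h : ∀ x ∈ commutator G, ∀ y ∈ commutator G, x * y = y * x) : Group.IsSolvable G := by
  haveI : Group.IsSolvable (commutator G) :=
    Group.isSolvable_of_comm (fun a b => Subtype.ext (h a a.2 b b.2))
  haveI : Group.IsSolvable (Abelianization G) := Group.isSolvable_of_comm (fun a b => mul_comm a b)
  refine Group.isSolvable_of_ker_le_range (commutator G).subtype (Abelianization.of (G := G)) ?_
  rw [Abelianization.ker_of, Subgroup.range_subtype]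

theorem sol : SolStmt.{u} := by
  intro G _ hG
  obtain ⟨T, _, f, -, hker, -, hT⟩ := hG
  haveI := hker
  haveI : Group.IsSolvable T := by
    rcases hT with hT | hT
    · exact sol_supersolvable T hT
    · exact sol_metabelian T hT
  refine Group.isSolvable_of_ker_le_range f.ker.subtype f ?_
  rw [Subgroup.range_subtype]

end Pool.Agent.Helper43.AG2
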